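import Mathlib
import Pool.Agent.V11332.BKR

namespace Pool.Agent.Results.MP_3c3b39_pr.StrictForAll

open Pool.Agent.V11332.BKR

variable {ι S : Type*}

/-- The simultaneous `r`-fold BKR product of `A 0, …, A (r-1)`. -/
def simul (r : ℕ) (A : ℕ → Set (ι → S)) : Set (ι → S) :=
  {x | ∃ K : Fin r → Set ι, (∀ i j, i ≠ j → Disjoint (K i) (K j)) ∧ ∀ i, cyl x (K i) ⊆ A i}

/-- The intersection of all binary-associated products of `A 0 ⋯ A (r-1)`. -/
def interAll (r : ℕ) (A : ℕ → Set (ι → S)) : Set (ι → S) :=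
  {x | ∀ T : Paren, T.leaves = r → x ∈ prod A T 0}

lemma prod_tri {A B C : Set (ι → S)} (i j k : ℕ) (hij : i < j) (hjk : j < k) :
    ∀ (T : Paren) (a : ℕ), a ≤ i → k < a + T.leaves →
      prod (tri A B C i j k) T a = box (box A B) C ∨
        prod (tri A B C i j k) T a = box A (box B C)
  | .leaf, a, h1, h2 => by
    simp only [Paren.leaves] at h2; omega
  | .node l r, a, h1, h2 => by
    have hA : tri A B C i j k i = A := by simp [tri]
    have hB : tri A B C i j k j = B := by
      unfold tri; rw [if_neg (by omega), if_pos rfl]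
    have hC : tri A B C i j k k = C := by
      unfold tri; rw [if_neg (by omega), if_neg (by omega), if_pos rfl]
    have hU : ∀ m, m ≠ i → m ≠ j → m ≠ k → tri A B C i j k m = Set.univ := by
      intro m h1 h2 h3
      unfold tri; rw [if_neg h1, if_neg h2, if_neg h3]
    simp only [prod, Paren.leaves] at h2 ⊢
    rcases lt_or_ge k (a + l.leaves) with h3 | h3
    · rw [prod_univ r (a + l.leaves) (fun m h4 h5 => hU m (by omega) (by omega) (by omega)),
        box_univ]
      exact prod_tri i j k hij hjk l a h1 h3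
    · rcases lt_or_ge j (a + l.leaves) with h4 | h4
      · left
        rw [prod_pair i j hij l a h1 h4 (fun m h5 h6 h7 h8 => hU m h7 h8 (by omega)),
          prod_single k r (a + l.leaves) h3 (by omega)
            (fun m h5 h6 h7 => hU m (by omega) (by omega) h7), hA, hB, hC]
      · rcases lt_or_ge i (a + l.leaves) with h5 | h5
        · right
          rw [prod_single i l a h1 h5 (fun m h6 h7 h8 => hU m h8 (by omega) (by omega)),
            prod_pair j k hjk r (a + l.leaves) h4 (by omega)
              (fun m h6 h7 h8 h9 => hU m (by omega) h8 h9), hA, hB, hC]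
        · rw [prod_univ l a (fun m h6 h7 => hU m (by omega) (by omega) (by omega)), univ_box]
          exact prod_tri i j k hij hjk r (a + l.leaves) h5 (by omega)

/-- For every `r ≥ 3` the simultaneous product can be strictly smaller than the intersection of
all binary-associated products. -/
theorem result (r : ℕ) (hr : 3 ≤ r) :
    ∃ (S : Type) (_ : Nonempty S) (_ : Finite S) (d : ℕ) (_ : 1 ≤ d)
      (A : ℕ → Set (Fin d → S)), simul r A ⊂ interAll r A := by
  classical
  let G : Unit → ℕ → Set (Fin 2 → Bool) := fun _ => tri gA gB gA 0 1 2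
  let ι := Fin r ⊕ Fin 2
  let e : ι ≃ Fin (r + 2) := finSumFinEquiv
  refine ⟨Option Unit × Bool, ⟨(none, false)⟩, inferInstance, r + 2, by omega,
    fun i => pull e (tagged r G i), ?_⟩
  have hempty : simul r (fun i => pull e (tagged r G i)) = ∅ := by
    rw [Set.eq_empty_iff_forall_notMem]
    rintro x ⟨K, hK, hKA⟩
    have hne : ∀ i : Fin r, (i : ℕ) < 3 → ∃ g : Fin 2, Sum.inr g ∈ e ⁻¹' K i := by
      intro i hi
      by_contra hcon
      push Not at hcon
      have h1 := (cyl_subset_pull e _ x (K i)).1 (hKA i)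
      have hbad : ∃ z : Fin 2 → Bool, z ∉ tri gA gB gA 0 1 2 (i : ℕ) := by
        have h3 : (i : ℕ) = 0 ∨ (i : ℕ) = 1 ∨ (i : ℕ) = 2 := by omega
        rcases h3 with h | h | h
        · exact ⟨_, by rw [h]; simpa [tri] using gA_not⟩
        · exact ⟨_, by rw [h]; simpa [tri] using gB_not⟩
        · exact ⟨_, by rw [h]; simpa [tri] using gA_not⟩
      obtain ⟨z, hz⟩ := hbad
      have hy : (Sum.elim (fun j => x (e (Sum.inl j)))
          (fun g => ((x (e (Sum.inr g))).1, z g)) : ι → Option Unit × Bool) ∈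
          cyl (fun c => x (e c)) (e ⁻¹' K i) := by
        rintro (j | g) hc
        · rfl
        · exact absurd hc (hcon g)
      obtain ⟨_, k, _, h4⟩ := h1 hy
      exact hz h4
    obtain ⟨g₀, h₀⟩ := hne ⟨0, by omega⟩ (by norm_num)
    obtain ⟨g₁, h₁⟩ := hne ⟨1, by omega⟩ (by norm_num)
    obtain ⟨g₂, h₂⟩ := hne ⟨2, by omega⟩ (by norm_num)
    have d01 := Set.disjoint_left.1 (hK ⟨0, by omega⟩ ⟨1, by omega⟩ (by simp))
    have d02 := Set.disjoint_left.1 (hK ⟨0, by omega⟩ ⟨2, by omega⟩ (by simp))
    have d12 := Set.disjoint_left.1 (hK ⟨1, by omega⟩ ⟨2, by omega⟩ (by simp))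
    have n01 : g₀ ≠ g₁ := fun h => d01 h₀ (h ▸ h₁)
    have n02 : g₀ ≠ g₂ := fun h => d02 h₀ (h ▸ h₂)
    have n12 : g₁ ≠ g₂ := fun h => d12 h₁ (h ▸ h₂)
    fin_cases g₀ <;> fin_cases g₁ <;> fin_cases g₂ <;> simp_all
  rw [hempty]
  refine ⟨Set.empty_subset _, fun h => ?_⟩
  let x : ι → Option Unit × Bool := Sum.elim (fun _ => (some (), false)) (fun g => (none, g0 g))
  have hx : (fun c => x (e.symm c)) ∈ interAll r (fun i => pull e (tagged r G i)) := by
    intro T hT
    rw [prod_pull]
    have h1 : (fun i => x (e.symm (e i))) = x := by funext i; simp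
    show (fun i => x (e.symm (e i))) ∈ prod (tagged r G) T 0
    rw [h1, tagged_mem (r := r) G () T 0 (by omega) x (fun _ _ _ => rfl)]
    show g0 ∈ prod (tri gA gB gA 0 1 2) T 0
    rcases prod_tri (A := gA) (B := gB) (C := gA) 0 1 2 (by norm_num) (by norm_num) T 0 le_rfl
      (by omega) with h | h
    · rw [h]; exact g0_mem'
    · rw [h, box_comm, box_comm gB gA]; exact g0_mem'
  exact h hx

end Pool.Agent.Results.MP_3c3b39_pr.StrictForAll
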